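import Mathlib
import Pool.Agent.Q231.LS.Defs

/-!
A recursive description of one derivation step of a left forbidding E0L grammar.
-/

namespace Pool.Agent.Q231.LFE
open Q231.LS

section
variable {A N : Type} (R : N ⊕ A → List (N ⊕ A) → Finset N → Prop)

/-- `PS R L u v`: the word `u`, preceded by the context `L`, is rewritten to `v` in parallel. -/
def PS : List (N ⊕ A) → List (N ⊕ A) → List (N ⊕ A) → Prop
  | _, [], v => v = []
  | L, X :: u, v => ∃ (y : List (N ⊕ A)) (W : Finset N) (v' : List (N ⊕ A)),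
      R X y W ∧ (∀ B ∈ W, Sum.inl B ∉ L) ∧ v = y ++ v' ∧ PS (L ++ [X]) u v'

theorem ps_iff (u : List (N ⊕ A)) : ∀ (L v : List (N ⊕ A)), PS R L u v ↔
    ∃ ys : List (List (N ⊕ A)), ys.length = u.length ∧ v = ys.flatten ∧
    ∀ (i : ℕ) (hi : i < u.length) (hi' : i < ys.length),
      ∃ W : Finset N, R u[i] ys[i] W ∧ ∀ B ∈ W, Sum.inl B ∉ L ++ u.take i := by
  induction u with
  | nil =>
    intro L v
    constructor
    · intro h
      simp only [PS] at h
      subst h
      exact ⟨[], rfl, rfl, fun i hi => absurd hi (by simp)⟩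
    · rintro ⟨ys, hl, rfl, -⟩
      have : ys = [] := by
        rw [← List.length_eq_zero_iff, hl]; rfl
      subst this
      simp [PS]
  | cons X u ih =>
    intro L v
    constructor
    · rintro ⟨y, W, v', hr, hW, rfl, hv⟩
      obtain ⟨ys, hl, rfl, h⟩ := (ih _ _).1 hv
      refine ⟨y :: ys, by simp [hl], by simp, ?_⟩
      intro i hi hi'
      cases i with
      | zero => exact ⟨W, hr, by simpa using hW⟩
      | succ i =>
        obtain ⟨W', h1, h2⟩ := h i (by simpa using hi) (by simpa using hi')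
        refine ⟨W', by simpa using h1, ?_⟩
        intro B hB
        have := h2 B hB
        simpa [List.append_assoc] using this
    · rintro ⟨ys, hl, rfl, h⟩
      cases ys with
      | nil => simp at hl
      | cons y ys =>
        obtain ⟨W, h1, h2⟩ := h 0 (by simp) (by simp)
        refine ⟨y, W, ys.flatten, by simpa using h1, by simpa using h2, by simp, ?_⟩
        refine (ih _ _).2 ⟨ys, by simpa using hl, rfl, ?_⟩
        intro i hi hi'
        obtain ⟨W', h1, h2⟩ := h (i + 1) (by simpa using hi) (by simpa using hi')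
        refine ⟨W', by simpa using h1, ?_⟩
        intro B hB
        have := h2 B hB
        simpa [List.append_assoc] using this

variable {R}

theorem ps_append {u u' : List (N ⊕ A)} : ∀ {L v : List (N ⊕ A)}, PS R L (u ++ u') v ↔
    ∃ v1 v2, PS R L u v1 ∧ PS R (L ++ u) u' v2 ∧ v = v1 ++ v2 := by
  induction u with
  | nil =>
    intro L v
    simp [PS]
  | cons X u ih =>
    intro L v
    constructor
    · rintro ⟨y, W, v', hr, hW, rfl, hv⟩
      obtain ⟨v1, v2, h1, h2, rfl⟩ := ih.1 hv
      refine ⟨y ++ v1, v2, ⟨y, W, v1, hr, hW, rfl, h1⟩, ?_, by simp⟩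
      simpa [List.append_assoc] using h2
    · rintro ⟨v1, v2, ⟨y, W, v', hr, hW, rfl, hv⟩, h2, rfl⟩
      refine ⟨y, W, v' ++ v2, hr, hW, by simp, ih.2 ⟨v', v2, hv, ?_, rfl⟩⟩
      simpa [List.append_assoc] using h2

theorem ps_mono {R' : N ⊕ A → List (N ⊕ A) → Finset N → Prop}
    (h : ∀ X y W, R X y W → R' X y W) {u : List (N ⊕ A)} : ∀ {L v : List (N ⊕ A)},
    PS R L u v → PS R' L u v := by
  induction u with
  | nil => intro L v h; exact h
  | cons X u ih =>
    intro L v
    rintro ⟨y, W, v', hr, hW, rfl, hv⟩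
    exact ⟨y, W, v', h _ _ _ hr, hW, rfl, ih hv⟩

end

theorem step_iff {A : Type} (G : LFE0L A) (u v : List (G.N ⊕ A)) :
    G.Step u v ↔ u ≠ [] ∧ PS (fun X y W => (X, y, W) ∈ G.rules) [] u v := by
  unfold LFE0L.Step
  rw [ps_iff]
  simp

end Pool.Agent.Q231.LFE
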