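import Mathlib
import Pool.Agent.Q231.LFE.PS
import Pool.Agent.W937.FG.Defs

/-!
Every language of a propagating left forbidding E0L grammar is generated by a noncontracting
grammar with forbidding sets.
-/

set_option autoImplicit false

namespace Pool.Agent.Q231.LFE.Conv
open Q231.LS Pool.Agent.W937.FG Relation

section
variable {A' N T : Type} (R : N ⊕ A' → List (N ⊕ A') → Finset N → Prop)
  (ax : List (N ⊕ A')) (f : T → A')

/-- nonterminals of the sequential grammar: two colours of symbols, active symbols, final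
symbols -/
inductive NT (A' N T : Type) : Type
  | start
  | s (c : Bool) (X : N ⊕ A')
  | act (c : Bool) (X : N ⊕ A') (S : Finset N)
  | fin (t : T)

instance [Finite A'] [Finite N] [Finite T] : Finite (NT A' N T) := by
  have : Function.Surjective (fun z : Unit ⊕ (Bool × (N ⊕ A')) ⊕
      (Bool × (N ⊕ A') × Finset N) ⊕ T => match z with
      | Sum.inl _ => (NT.start : NT A' N T)
      | Sum.inr (Sum.inl p) => NT.s p.1 p.2
      | Sum.inr (Sum.inr (Sum.inl p)) => NT.act p.1 p.2.1 p.2.2
      | Sum.inr (Sum.inr (Sum.inr t)) => NT.fin t) := by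
    intro z
    cases z with
    | start => exact ⟨Sum.inl (), rfl⟩
    | s c X => exact ⟨Sum.inr (Sum.inl (c, X)), rfl⟩
    | act c X S => exact ⟨Sum.inr (Sum.inr (Sum.inl (c, X, S))), rfl⟩
    | fin t => exact ⟨Sum.inr (Sum.inr (Sum.inr t)), rfl⟩
  exact Finite.of_surjective _ this

/-- symbols of the sequential grammar -/
abbrev Sy (A' N T : Type) : Type := Symbol T (NT A' N T)

/-- coloured word -/
def enc (c : Bool) (u : List (N ⊕ A')) : List (Sy A' N T) :=
  u.map (fun X => Symbol.nonterminal (NT.s c X))

/-- add a symbol to a set of nonterminals -/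
noncomputable def ins (S : Finset N) : N ⊕ A' → Finset N
  | Sum.inl B => by classical exact insert B S
  | Sum.inr _ => S

/-- the nonterminals of a word -/
noncomputable def nts : List (N ⊕ A') → Finset N → Finset N
  | [], S => S
  | X :: u, S => nts u (ins S X)

theorem mem_ins (S : Finset N) (X : N ⊕ A') (B : N) : B ∈ ins S X ↔ B ∈ S ∨ X = Sum.inl B := by
  classical
  cases X with
  | inl C => simp [ins, eq_comm, or_comm]
  | inr a => simp [ins]

/-- the set `S` describes the nonterminals of the word `L` -/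
def Desc (S : Finset N) (L : List (N ⊕ A')) : Prop := ∀ B, B ∈ S ↔ Sum.inl B ∈ L

theorem desc_nil : Desc (∅ : Finset N) ([] : List (N ⊕ A')) := by
  intro B; simp

theorem desc_ins {S : Finset N} {L : List (N ⊕ A')} (h : Desc S L) (X : N ⊕ A') :
    Desc (ins S X) (L ++ [X]) := by
  intro B
  rw [mem_ins, h B]
  simp [eq_comm]

section
variable [Finite A'] [Finite N] [Finite T]

/-- the finite set of nonterminals with a property -/
noncomputable def fs (p : NT A' N T → Prop) : Finset (NT A' N T) :=
  (Set.toFinite {x | p x}).toFinset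

theorem mem_fs (p : NT A' N T → Prop) (x : NT A' N T) : x ∈ fs p ↔ p x := by
  simp [fs]

/-- rules of the sequential grammar -/
inductive GR : List (Sy A' N T) → List (Sy A' N T) → Finset (NT A' N T) → Prop
  | start : GR [Symbol.nonterminal NT.start] (enc false ax) ∅
  | begin (c : Bool) (X : N ⊕ A') : GR [Symbol.nonterminal (NT.s c X)]
      [Symbol.nonterminal (NT.act c X ∅)]
      (fs (fun z => (∃ Y, z = NT.s (!c) Y) ∨ (∃ c' Y S, z = NT.act c' Y S) ∨ ∃ t, z = NT.fin t))
  | proceed (c : Bool) (X Y : N ⊕ A') (S : Finset N) (y : List (N ⊕ A')) (W : Finset N)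
      (h : R X y W) (hW : ∀ B ∈ W, B ∉ S) :
      GR [Symbol.nonterminal (NT.act c X S), Symbol.nonterminal (NT.s c Y)]
        (enc (!c) y ++ [Symbol.nonterminal (NT.act c Y (ins S X))]) ∅
  | finish (c : Bool) (X : N ⊕ A') (S : Finset N) (y : List (N ⊕ A')) (W : Finset N)
      (h : R X y W) (hW : ∀ B ∈ W, B ∉ S) :
      GR [Symbol.nonterminal (NT.act c X S)] (enc (!c) y) (fs (fun z => ∃ Y, z = NT.s c Y))
  | term (c : Bool) (t : T) : GR [Symbol.nonterminal (NT.s c (Sum.inr (f t)))]
      [Symbol.nonterminal (NT.fin t)]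
      (fs (fun z => (∃ c' Y, z = NT.s c' Y ∧ ¬ ∃ t', Y = Sum.inr (f t')) ∨
        ∃ c' Y S, z = NT.act c' Y S))
  | out (t : T) : GR [Symbol.nonterminal (NT.fin t)] [Symbol.terminal t]
      (fs (fun z => (∃ c Y, z = NT.s c Y) ∨ ∃ c Y S, z = NT.act c Y S))

theorem gr_finite (hR : {r : (N ⊕ A') × List (N ⊕ A') × Finset N | R r.1 r.2.1 r.2.2}.Finite) :
    {r : GRule T (NT A' N T) | GR R ax f r.1 r.2.1 r.2.2}.Finite := by
  have hK : Finite ↥{r : (N ⊕ A') × List (N ⊕ A') × Finset N | R r.1 r.2.1 r.2.2} := hR
  have h : {r : GRule T (NT A' N T) | GR R ax f r.1 r.2.1 r.2.2} ⊆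
      {([Symbol.nonterminal NT.start], enc false ax, ∅)} ∪
      (Set.range (fun p : Bool × (N ⊕ A') => (([Symbol.nonterminal (NT.s p.1 p.2)],
        [Symbol.nonterminal (NT.act p.1 p.2 ∅)],
        (fs (fun z => (∃ Y, z = NT.s (!p.1) Y) ∨ (∃ c' Y S, z = NT.act c' Y S) ∨
          ∃ t, z = NT.fin t))) : GRule T (NT A' N T))) ∪
      (Set.range (fun p : Bool × (N ⊕ A') × Finset N ×
          ↥{r : (N ⊕ A') × List (N ⊕ A') × Finset N | R r.1 r.2.1 r.2.2} =>
        (([Symbol.nonterminal (NT.act p.1 p.2.2.2.1.1 p.2.2.1),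
            Symbol.nonterminal (NT.s p.1 p.2.1)],
          enc (!p.1) p.2.2.2.1.2.1 ++ [Symbol.nonterminal (NT.act p.1 p.2.1
            (ins p.2.2.1 p.2.2.2.1.1))], ∅) : GRule T (NT A' N T))) ∪
      (Set.range (fun p : Bool × Finset N ×
          ↥{r : (N ⊕ A') × List (N ⊕ A') × Finset N | R r.1 r.2.1 r.2.2} =>
        (([Symbol.nonterminal (NT.act p.1 p.2.2.1.1 p.2.1)], enc (!p.1) p.2.2.1.2.1,
          fs (fun z => ∃ Y, z = NT.s p.1 Y)) : GRule T (NT A' N T))) ∪
      (Set.range (fun p : Bool × T => (([Symbol.nonterminal (NT.s p.1 (Sum.inr (f p.2)))],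
        [Symbol.nonterminal (NT.fin p.2)],
        (fs (fun z => (∃ c' Y, z = NT.s c' Y ∧ ¬ ∃ t', Y = Sum.inr (f t')) ∨
          ∃ c' Y S, z = NT.act c' Y S))) : GRule T (NT A' N T))) ∪
      Set.range (fun t : T => (([Symbol.nonterminal (NT.fin t)], [Symbol.terminal t],
        (fs (fun z => (∃ c Y, z = NT.s c Y) ∨ ∃ c Y S, z = NT.act c Y S))) :
          GRule T (NT A' N T))))))) := by
    rintro ⟨l, r, F⟩ hr
    simp only [Set.mem_ofPred_eq] at hr
    cases hr with
    | start => exact Or.inl rfl
    | begin c X => exact Or.inr (Or.inl ⟨(c, X), rfl⟩)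
    | proceed c X Y S y W h hW =>
      exact Or.inr (Or.inr (Or.inl ⟨(c, Y, S, ⟨(X, y, W), h⟩), rfl⟩))
    | finish c X S y W h hW =>
      exact Or.inr (Or.inr (Or.inr (Or.inl ⟨(c, S, ⟨(X, y, W), h⟩), rfl⟩)))
    | term c t => exact Or.inr (Or.inr (Or.inr (Or.inr (Or.inl ⟨(c, t), rfl⟩))))
    | out t => exact Or.inr (Or.inr (Or.inr (Or.inr (Or.inr ⟨t, rfl⟩))))
  refine Set.Finite.subset ?_ h
  refine (Set.toFinite _).union ?_
  refine (Set.finite_range _).union ?_
  refine (Set.finite_range _).union ?_
  refine (Set.finite_range _).union ?_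
  exact (Set.finite_range _).union (Set.finite_range _)

/-- the rule set of the sequential grammar -/
def rules : Set (GRule T (NT A' N T)) := {r | GR R ax f r.1 r.2.1 r.2.2}

theorem noncontracting (hax : ax ≠ []) (hp : ∀ X y W, R X y W → y ≠ []) :
    ∀ ρ ∈ rules R ax f, ρ.1.length ≤ ρ.2.1.length := by
  rintro ⟨l, r, F⟩ hr
  simp only [rules, Set.mem_ofPred_eq] at hr
  cases hr with
  | start =>
    have := List.length_pos_iff.2 hax
    simp only [enc, List.length_cons, List.length_nil, List.length_map]
    omega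
  | begin c X => simp
  | proceed c X Y S y W h hW =>
    have := List.length_pos_iff.2 (hp _ _ _ h)
    simp only [enc, List.length_cons, List.length_nil, List.length_append, List.length_map]
    omega
  | finish c X S y W h hW =>
    have := List.length_pos_iff.2 (hp _ _ _ h)
    simp only [enc, List.length_cons, List.length_nil, List.length_map]
    omega
  | term c t => simp
  | out t => simp

/-- one parallel step -/
def HStep (u v : List (N ⊕ A')) : Prop := u ≠ [] ∧ PS R [] u v

/-- sentential forms of the sequential grammar which are not dead -/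
inductive Good : List (Sy A' N T) → Prop
  | start : Good [Symbol.nonterminal NT.start]
  | idle (c : Bool) (u : List (N ⊕ A')) (h : ReflTransGen (HStep R) ax u) : Good (enc c u)
  | mid (c : Bool) (u1 v1 u2 : List (N ⊕ A')) (X : N ⊕ A') (S : Finset N)
      (h : ReflTransGen (HStep R) ax (u1 ++ [X] ++ u2)) (hS : Desc S u1) (hv : PS R [] u1 v1) :
      Good (enc (!c) v1 ++ [Symbol.nonterminal (NT.act c X S)] ++ enc c u2)
  | fins (w : List T) (α : List (Sy A' N T)) (h : ReflTransGen (HStep R) ax (w.map (Sum.inr ∘ f)))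
      (hα : List.Forall₂ (fun t a => (∃ c, a = Symbol.nonterminal (NT.s c (Sum.inr (f t)))) ∨
        a = Symbol.nonterminal (NT.fin t)) w α) (hne : ∃ t, Symbol.nonterminal (NT.fin t) ∈ α) :
      Good α
  | outs (w : List T) (α : List (Sy A' N T)) (h : ReflTransGen (HStep R) ax (w.map (Sum.inr ∘ f)))
      (hα : List.Forall₂ (fun t a => a = Symbol.nonterminal (NT.fin t) ∨ a = Symbol.terminal t)
        w α) : Good α

/-- dead forms: the active symbol has a symbol of its own colour on its left -/
def Dead (α : List (Sy A' N T)) : Prop :=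
  ∃ (c : Bool) (Z X : N ⊕ A') (S : Finset N) (a1 a2 : List (Sy A' N T)),
    α = a1 ++ [Symbol.nonterminal (NT.act c X S)] ++ a2 ∧
    Symbol.nonterminal (NT.s c Z) ∈ a1 ∧
    (∀ c' Y S', Symbol.nonterminal (NT.act c' Y S') ∉ a1) ∧
    (∀ c' Y S', Symbol.nonterminal (NT.act c' Y S') ∉ a2) ∧
    Symbol.nonterminal NT.start ∉ α

end

/-- unique occurrence -/
theorem uniq {V : Type} (p : V → Prop) {a b u v : List V} {x x' : V} (ha : ∀ z ∈ a, ¬ p z)
    (hb : ∀ z ∈ b, ¬ p z) (hx' : p x') (h : a ++ [x] ++ b = u ++ [x'] ++ v) :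
    a = u ∧ x = x' ∧ b = v := by
  induction a generalizing u with
  | nil =>
    cases u with
    | nil => simpa using h
    | cons z u =>
      exfalso
      simp only [List.nil_append, List.cons_append, List.cons.injEq] at h
      exact hb x' (by rw [h.2]; simp) hx'
  | cons z a ih =>
    cases u with
    | nil =>
      exfalso
      simp only [List.nil_append, List.cons_append, List.cons.injEq] at h
      exact ha z (by simp) (h.1 ▸ hx')
    | cons z' u =>
      simp only [List.cons_append, List.cons.injEq] at h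
      obtain ⟨h1, h2, h3⟩ := ih (fun z hz => ha z (List.mem_cons_of_mem _ hz)) (u := u) h.2
      exact ⟨by rw [h.1, h1], h2, h3⟩

theorem enc_append (c : Bool) (u v : List (N ⊕ A')) :
    (enc c (u ++ v) : List (Sy A' N T)) = enc c u ++ enc c v := by
  simp [enc]

theorem mem_enc {c : Bool} {u : List (N ⊕ A')} {z : Sy A' N T} (h : z ∈ enc c u) :
    ∃ X, z = Symbol.nonterminal (NT.s c X) ∧ X ∈ u := by
  obtain ⟨X, hX, rfl⟩ := List.mem_map.1 h
  exact ⟨X, rfl, hX⟩

theorem enc_split {c : Bool} {u0 : List (N ⊕ A')} {u v : List (Sy A' N T)} {z : Sy A' N T}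
    (h : enc c u0 = u ++ [z] ++ v) : ∃ u1 X u2, u0 = u1 ++ [X] ++ u2 ∧ u = enc c u1 ∧
      v = enc c u2 ∧ z = Symbol.nonterminal (NT.s c X) := by
  unfold enc at h
  obtain ⟨l1, l2, rfl, h1, h2⟩ := List.map_eq_append_iff.1 h
  obtain ⟨l3, l4, rfl, h3, h4⟩ := List.map_eq_append_iff.1 h1
  cases l4 with
  | nil => simp at h4
  | cons X l4 =>
    simp only [List.map_cons, List.cons.injEq, List.map_eq_nil_iff] at h4
    obtain ⟨h5, rfl⟩ := h4
    exact ⟨l3, X, l2, rfl, h3.symm, h2.symm, h5.symm⟩

section
variable [Finite A'] [Finite N] [Finite T]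

theorem idle_step (hf : Function.Injective f) {c : Bool} {u0 : List (N ⊕ A')}
    (h0 : ReflTransGen (HStep R) ax u0)
    {u v l r : List (Sy A' N T)} {F : Finset (NT A' N T)} (hr : GR R ax f l r F)
    (hα : enc c u0 = u ++ l ++ v) (hF : ∀ B ∈ F, Symbol.nonterminal B ∉ enc c u0) :
    Good R ax f (u ++ r ++ v) ∨ Dead (u ++ r ++ v) := by
  cases hr with
  | start =>
    obtain ⟨u1, X, u2, -, -, -, h⟩ := enc_split hα
    simp at h
  | begin c' X =>
    obtain ⟨u1, X', u2, rfl, rfl, rfl, h⟩ := enc_split hα
    simp only [Symbol.nonterminal.injEq, NT.s.injEq] at h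
    obtain ⟨rfl, rfl⟩ := h
    cases u1 with
    | nil =>
      left
      have := Good.mid (R := R) (ax := ax) (f := f) c' [] [] u2 X ∅ h0 desc_nil rfl
      simpa [enc] using this
    | cons Z u1 =>
      right
      refine ⟨c', Z, X, ∅, enc c' (Z :: u1), enc c' u2, rfl, ?_, ?_, ?_, ?_⟩
      · simp [enc]
      · intro c'' Y S' hm
        obtain ⟨_, h, _⟩ := mem_enc hm
        simp at h
      · intro c'' Y S' hm
        obtain ⟨_, h, _⟩ := mem_enc hm
        simp at h
      · intro hm
        simp only [List.append_assoc, List.mem_append, List.mem_singleton,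
          Symbol.nonterminal.injEq, reduceCtorEq, false_or] at hm
        rcases hm with hm | hm
        · obtain ⟨_, h, _⟩ := mem_enc hm
          simp at h
        · obtain ⟨_, h, _⟩ := mem_enc hm
          simp at h
  | proceed c' X Y S y W h hW =>
    exfalso
    have : (Symbol.nonterminal (NT.act c' X S) : Sy A' N T) ∈ (enc c u0 : List (Sy A' N T)) := by
      rw [hα]; simp
    obtain ⟨_, h, _⟩ := mem_enc this
    simp at h
  | finish c' X S y W h hW =>
    exfalso
    have : (Symbol.nonterminal (NT.act c' X S) : Sy A' N T) ∈ (enc c u0 : List (Sy A' N T)) := by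
      rw [hα]; simp
    obtain ⟨_, h, _⟩ := mem_enc this
    simp at h
  | term c' t =>
    left
    have hall : ∀ X ∈ u0, ∃ t', X = Sum.inr (f t') := by
      intro X hX
      by_contra hcon
      refine hF (NT.s c X) ((mem_fs _ _).2 (Or.inl ⟨c, X, rfl, hcon⟩)) ?_
      exact List.mem_map.2 ⟨X, hX, rfl⟩
    have hw : ∃ w : List T, u0 = w.map (Sum.inr ∘ f) := by
      clear hα h0 hF
      induction u0 with
      | nil => exact ⟨[], rfl⟩
      | cons X u0 ih =>
        obtain ⟨w, rfl⟩ := ih (fun X hX => hall X (List.mem_cons_of_mem _ hX))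
        obtain ⟨t', rfl⟩ := hall X List.mem_cons_self
        exact ⟨t' :: w, rfl⟩
    obtain ⟨w, rfl⟩ := hw
    refine Good.fins w _ h0 ?_ ⟨t, by simp⟩
    obtain ⟨u1, X', u2, hu, rfl, rfl, h⟩ := enc_split hα
    simp only [Symbol.nonterminal.injEq, NT.s.injEq] at h
    obtain ⟨rfl, rfl⟩ := h
    obtain ⟨l1, l2, rfl, h1, h2⟩ := List.map_eq_append_iff.1 hu
    obtain ⟨l3, l4, rfl, h3, h4⟩ := List.map_eq_append_iff.1 h1
    cases l4 with
    | nil => simp at h4
    | cons t' l4 =>
      simp only [List.map_cons, List.cons.injEq, List.map_eq_nil_iff, Function.comp_apply,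
        Sum.inr.injEq] at h4
      obtain ⟨h5, rfl⟩ := h4
      have h6 := hf h5
      subst h6 h3 h2
      have aux : ∀ l : List T, List.Forall₂ (fun t a =>
          (∃ c, a = Symbol.nonterminal (NT.s c (Sum.inr (f t)))) ∨
          a = Symbol.nonterminal (NT.fin t)) l
            (enc c' (l.map (Sum.inr ∘ f)) : List (Sy A' N T)) := by
        intro l
        induction l with
        | nil => exact List.Forall₂.nil
        | cons t l ih => exact List.Forall₂.cons (Or.inl ⟨c', rfl⟩) ih
      exact List.rel_append (List.rel_append (aux l3)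
        (List.Forall₂.cons (Or.inr rfl) List.Forall₂.nil)) (aux l2)
  | out t =>
    obtain ⟨u1, X, u2, -, -, -, h⟩ := enc_split hα
    simp at h

theorem mid_step {c : Bool} {u1 v1 u2 : List (N ⊕ A')} {X : N ⊕ A'} {S : Finset N}
    (h0 : ReflTransGen (HStep R) ax (u1 ++ [X] ++ u2)) (hS : Desc S u1) (hv : PS R [] u1 v1)
    {u v l r : List (Sy A' N T)} {F : Finset (NT A' N T)} (hr : GR R ax f l r F)
    (hα : enc (!c) v1 ++ [Symbol.nonterminal (NT.act c X S)] ++ enc c u2 = u ++ l ++ v)
    (hF : ∀ B ∈ F, Symbol.nonterminal B ∉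
      enc (!c) v1 ++ [Symbol.nonterminal (NT.act c X S)] ++ enc c u2) :
    Good R ax f (u ++ r ++ v) ∨ Dead (u ++ r ++ v) := by
  have hna : ∀ (c' : Bool) (w : List (N ⊕ A')) (z : Sy A' N T), z ∈ enc c' w →
      ¬ (∃ c' Y S', z = Symbol.nonterminal (NT.act c' Y S')) := by
    rintro c' w z hz ⟨c'', Y, S', rfl⟩
    obtain ⟨_, h, _⟩ := mem_enc hz
    simp at h
  have hact : (Symbol.nonterminal (NT.act c X S) : Sy A' N T) ∈
      enc (!c) v1 ++ [Symbol.nonterminal (NT.act c X S)] ++ enc c u2 := by simp
  have happ : ∀ y W, R X y W → (∀ B ∈ W, B ∉ S) → PS R [] (u1 ++ [X]) (v1 ++ y) := by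
    intro y W h hW
    refine ps_append.2 ⟨v1, y, hv, ⟨y, W, [], h, ?_, by simp, rfl⟩, rfl⟩
    intro B hB hm
    exact hW B hB ((hS B).2 (by simpa using hm))
  cases hr with
  | start =>
    exfalso
    have : (Symbol.nonterminal NT.start : Sy A' N T) ∈
        enc (!c) v1 ++ [Symbol.nonterminal (NT.act c X S)] ++ enc c u2 := by rw [hα]; simp
    simp only [List.append_assoc, List.mem_append, List.mem_singleton,
      Symbol.nonterminal.injEq, reduceCtorEq, false_or] at this
    rcases this with hm | hm
    · obtain ⟨_, h, _⟩ := mem_enc hm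
      simp at h
    · obtain ⟨_, h, _⟩ := mem_enc hm
      simp at h
  | begin c' X' =>
    exact absurd hact (hF _ ((mem_fs _ _).2 (Or.inr (Or.inl ⟨c, X, S, rfl⟩))))
  | proceed c' X' Y S' y W h hW =>
    left
    have hα' : enc (!c) v1 ++ [Symbol.nonterminal (NT.act c X S)] ++ enc c u2 =
        u ++ [Symbol.nonterminal (NT.act c' X' S')] ++
          ([Symbol.nonterminal (NT.s c' Y)] ++ v) := by
      rw [hα]; simp
    obtain ⟨h1, h2, h3⟩ := uniq (fun z => ∃ c' Y S', z = Symbol.nonterminal (NT.act c' Y S'))
      (hna (!c) v1) (hna c u2) ⟨c', X', S', rfl⟩ hα'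
    simp only [Symbol.nonterminal.injEq, NT.act.injEq] at h2
    obtain ⟨rfl, rfl, rfl⟩ := h2
    subst h1
    cases u2 with
    | nil => simp [enc] at h3
    | cons Y' u2 =>
      simp only [enc, List.map_cons, List.singleton_append, List.cons.injEq,
        Symbol.nonterminal.injEq, NT.s.injEq, true_and] at h3
      obtain ⟨rfl, rfl⟩ := h3
      have := Good.mid (R := R) (ax := ax) (f := f) c (u1 ++ [X]) (v1 ++ y) u2 Y' (ins S X)
        (by simpa using h0) (desc_ins hS X) (happ y W h hW)
      simpa [enc] using this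
  | finish c' X' S' y W h hW =>
    left
    obtain ⟨h1, h2, h3⟩ := uniq (fun z => ∃ c' Y S', z = Symbol.nonterminal (NT.act c' Y S'))
      (hna (!c) v1) (hna c u2) ⟨c', X', S', rfl⟩ hα
    simp only [Symbol.nonterminal.injEq, NT.act.injEq] at h2
    obtain ⟨rfl, rfl, rfl⟩ := h2
    subst h1 h3
    have hu2 : u2 = [] := by
      cases u2 with
      | nil => rfl
      | cons Y u2 =>
        exact absurd (by simp [enc]) (hF (NT.s c Y) ((mem_fs _ _).2 ⟨Y, rfl⟩))
    subst hu2
    have := Good.idle (R := R) (ax := ax) (f := f) (!c) (v1 ++ y)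
      (h0.tail ⟨by simp, by simpa using happ y W h hW⟩)
    simpa [enc] using this
  | term c' t =>
    exact absurd hact (hF _ ((mem_fs _ _).2 (Or.inr ⟨c, X, S, rfl⟩)))
  | out t =>
    exact absurd hact (hF _ ((mem_fs _ _).2 (Or.inr ⟨c, X, S, rfl⟩)))

theorem dead_step {α : List (Sy A' N T)} (hd : Dead α)
    {u v l r : List (Sy A' N T)} {F : Finset (NT A' N T)} (hr : GR R ax f l r F)
    (hα : α = u ++ l ++ v) (hF : ∀ B ∈ F, Symbol.nonterminal B ∉ α) :
    Dead (u ++ r ++ v) := by
  obtain ⟨c, Z, X, S, a1, a2, rfl, hZ, h1, h2, hs⟩ := hd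
  have hact : (Symbol.nonterminal (NT.act c X S) : Sy A' N T) ∈
      a1 ++ [Symbol.nonterminal (NT.act c X S)] ++ a2 := by simp
  cases hr with
  | start => exact absurd (by rw [hα]; simp) hs
  | begin c' X' =>
    exact absurd hact (hF _ ((mem_fs _ _).2 (Or.inr (Or.inl ⟨c, X, S, rfl⟩))))
  | proceed c' X' Y S' y W h hW =>
    have hα' : a1 ++ [Symbol.nonterminal (NT.act c X S)] ++ a2 =
        u ++ [Symbol.nonterminal (NT.act c' X' S')] ++
          ([Symbol.nonterminal (NT.s c' Y)] ++ v) := by
      rw [hα]; simp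
    obtain ⟨h3, h4, h5⟩ := uniq (fun z => ∃ c' Y S', z = Symbol.nonterminal (NT.act c' Y S'))
      (by rintro z hz ⟨c', Y, S', rfl⟩; exact h1 _ _ _ hz)
      (by rintro z hz ⟨c', Y, S', rfl⟩; exact h2 _ _ _ hz) ⟨c', X', S', rfl⟩ hα'
    simp only [Symbol.nonterminal.injEq, NT.act.injEq] at h4
    obtain ⟨rfl, rfl, rfl⟩ := h4
    subst h3 h5
    refine ⟨c, Z, Y, ins S X, a1 ++ enc (!c) y, v, by simp, List.mem_append_left _ hZ, ?_, ?_, ?_⟩
    · intro c' Y' S' hm
      rcases List.mem_append.1 hm with hm | hm
      · exact h1 _ _ _ hm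
      · obtain ⟨_, h, _⟩ := mem_enc hm
        simp at h
    · intro c' Y' S' hm
      exact h2 c' Y' S' (List.mem_append_right _ hm)
    · intro hm
      simp only [List.append_assoc, List.mem_append, List.mem_singleton,
        Symbol.nonterminal.injEq, reduceCtorEq, false_or] at hm
      rcases hm with hm | hm | hm
      · exact hs (by simp [hm])
      · obtain ⟨_, h, _⟩ := mem_enc hm
        simp at h
      · exact hs (by simp [hm])
  | finish c' X' S' y W h hW =>
    exfalso
    obtain ⟨h3, h4, h5⟩ := uniq (fun z => ∃ c' Y S', z = Symbol.nonterminal (NT.act c' Y S'))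
      (by rintro z hz ⟨c', Y, S', rfl⟩; exact h1 _ _ _ hz)
      (by rintro z hz ⟨c', Y, S', rfl⟩; exact h2 _ _ _ hz) ⟨c', X', S', rfl⟩ hα
    simp only [Symbol.nonterminal.injEq, NT.act.injEq] at h4
    obtain ⟨rfl, rfl, rfl⟩ := h4
    exact hF (NT.s c Z) ((mem_fs _ _).2 ⟨Z, rfl⟩) (by simp [hZ])
  | term c' t =>
    exact absurd hact (hF _ ((mem_fs _ _).2 (Or.inr ⟨c, X, S, rfl⟩)))
  | out t =>
    exact absurd hact (hF _ ((mem_fs _ _).2 (Or.inr ⟨c, X, S, rfl⟩)))

/-- replace one entry in a relation between lists -/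
theorem forall2_replace {V W : Type} {p q : V → W → Prop} {w : List V} {a b : List W} {x y : W}
    (h : List.Forall₂ p w (a ++ [x] ++ b)) (hpq : ∀ t z, z ∈ a ++ [x] ++ b → z ≠ x → p t z → q t z)
    (hx : ∀ t, p t x → q t y) (hxq : ∀ t, p t x → x ∈ a ++ b → q t x) :
    List.Forall₂ q w (a ++ [y] ++ b) := by
  classical
  induction a generalizing w with
  | nil =>
    cases h with
    | cons h1 h2 =>
      refine List.Forall₂.cons (hx _ h1) ?_
      have : ∀ (w : List V) (b' : List W), (∀ z ∈ b', z ∈ b) → List.Forall₂ p w b' →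
          List.Forall₂ q w b' := by
        intro w b' hb' h
        induction h with
        | nil => exact List.Forall₂.nil
        | @cons t z w b' h3 h4 ih =>
          refine List.Forall₂.cons ?_ (ih (fun z hz => hb' z (List.mem_cons_of_mem _ hz)))
          have hz := hb' z List.mem_cons_self
          by_cases hzx : z = x
          · subst hzx
            exact hxq _ h3 (by simpa using hz)
          · exact hpq _ _ (by simp [hz]) hzx h3
      exact this _ _ (fun z hz => hz) h2
  | cons z a ih =>
    cases h with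
    | cons h1 h2 =>
      refine List.Forall₂.cons ?_ (ih h2 ?_ ?_)
      · by_cases hzx : z = x
        · subst hzx
          exact hxq _ h1 (by simp)
        · exact hpq _ _ (by simp) hzx h1
      · intro t z' hz' hne hp
        exact hpq t z' (by simp only [List.cons_append, List.mem_cons]; exact Or.inr hz') hne hp
      · intro t hp hm
        exact hxq t hp (by simp only [List.cons_append, List.mem_cons]; exact Or.inr hm)

theorem forall2_mem {V W : Type} {p : V → W → Prop} {w : List V} {α : List W}
    (h : List.Forall₂ p w α) {z : W} (hz : z ∈ α) : ∃ t, p t z := by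
  induction h with
  | nil => simp at hz
  | cons h1 _ ih =>
    rcases List.mem_cons.1 hz with rfl | hz
    · exact ⟨_, h1⟩
    · exact ih hz

theorem fins_step (hf : Function.Injective f) {w : List T} {α : List (Sy A' N T)}
    (h0 : ReflTransGen (HStep R) ax (w.map (Sum.inr ∘ f)))
    (hw : List.Forall₂ (fun t a => (∃ c, a = Symbol.nonterminal (NT.s c (Sum.inr (f t)))) ∨
        a = Symbol.nonterminal (NT.fin t)) w α) (hne : ∃ t, Symbol.nonterminal (NT.fin t) ∈ α)
    {u v l r : List (Sy A' N T)} {F : Finset (NT A' N T)} (hr : GR R ax f l r F)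
    (hα : α = u ++ l ++ v) (hF : ∀ B ∈ F, Symbol.nonterminal B ∉ α) :
    Good R ax f (u ++ r ++ v) := by
  obtain ⟨t0, ht0⟩ := hne
  subst hα
  cases hr with
  | start =>
    exfalso
    obtain ⟨t, ht⟩ := forall2_mem hw (z := Symbol.nonterminal NT.start) (by simp)
    simp at ht
  | begin c X =>
    exact absurd ht0 (hF _ ((mem_fs _ _).2 (Or.inr (Or.inr ⟨t0, rfl⟩))))
  | proceed c X Y S y W h hW =>
    exfalso
    obtain ⟨t, ht⟩ := forall2_mem hw (z := Symbol.nonterminal (NT.act c X S)) (by simp)
    simp at ht
  | finish c X S y W h hW =>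
    exfalso
    obtain ⟨t, ht⟩ := forall2_mem hw (z := Symbol.nonterminal (NT.act c X S)) (by simp)
    simp at ht
  | term c t =>
    refine Good.fins w _ h0 ?_ ⟨t, by simp⟩
    refine forall2_replace hw (fun _ _ _ _ h => h) ?_ (fun _ h _ => h)
    intro t' ht'
    rcases ht' with ⟨c', h⟩ | h
    · simp only [Symbol.nonterminal.injEq, NT.s.injEq, Sum.inr.injEq] at h
      rw [hf h.2]
      exact Or.inr rfl
    · simp at h
  | out t =>
    refine Good.outs w _ h0 ?_
    refine forall2_replace hw ?_ ?_ ?_
    · intro t' z hz hne h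
      rcases h with ⟨c, rfl⟩ | h
      · exact absurd hz (hF _ ((mem_fs _ _).2 (Or.inl ⟨c, _, rfl⟩)))
      · exact Or.inl h
    · intro t' h
      rcases h with ⟨c, h⟩ | h
      · simp at h
      · simp only [Symbol.nonterminal.injEq, NT.fin.injEq] at h
        subst h
        exact Or.inr rfl
    · intro t' h _
      rcases h with ⟨c, h⟩ | h
      · simp at h
      · exact Or.inl h

theorem outs_step {w : List T} {α : List (Sy A' N T)}
    (h0 : ReflTransGen (HStep R) ax (w.map (Sum.inr ∘ f)))
    (hw : List.Forall₂ (fun t a => a = Symbol.nonterminal (NT.fin t) ∨ a = Symbol.terminal t)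
      w α) {u v l r : List (Sy A' N T)} {F : Finset (NT A' N T)} (hr : GR R ax f l r F)
    (hα : α = u ++ l ++ v) : Good R ax f (u ++ r ++ v) := by
  subst hα
  cases hr with
  | start =>
    exfalso
    obtain ⟨t, ht⟩ := forall2_mem hw (z := Symbol.nonterminal NT.start) (by simp)
    simp at ht
  | begin c X =>
    exfalso
    obtain ⟨t, ht⟩ := forall2_mem hw (z := Symbol.nonterminal (NT.s c X)) (by simp)
    simp at ht
  | proceed c X Y S y W h hW =>
    exfalso
    obtain ⟨t, ht⟩ := forall2_mem hw (z := Symbol.nonterminal (NT.act c X S)) (by simp)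
    simp at ht
  | finish c X S y W h hW =>
    exfalso
    obtain ⟨t, ht⟩ := forall2_mem hw (z := Symbol.nonterminal (NT.act c X S)) (by simp)
    simp at ht
  | term c t =>
    exfalso
    obtain ⟨t', ht⟩ := forall2_mem hw (z := Symbol.nonterminal (NT.s c (Sum.inr (f t))))
      (by simp)
    simp at ht
  | out t =>
    refine Good.outs w _ h0 ?_
    refine forall2_replace hw (fun _ _ _ _ h => h) ?_ (fun _ h _ => h)
    intro t' h
    rcases h with h | h
    · simp only [Symbol.nonterminal.injEq, NT.fin.injEq] at h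
      subst h
      exact Or.inr rfl
    · simp at h

theorem inv_step (hf : Function.Injective f) {α β : List (Sy A' N T)}
    (hα : Good R ax f α ∨ Dead α) (h : GStep (rules R ax f) α β) :
    Good R ax f β ∨ Dead β := by
  obtain ⟨u, v, l, r, F, hr, he, rfl, hF⟩ := h
  simp only [rules, Set.mem_ofPred_eq] at hr
  rcases hα with hg | hd
  · cases hg with
    | start =>
      cases hr with
      | start =>
        have h1 : u = [] ∧ v = [] := by
          have := congrArg List.length he
          simp only [List.length_append, List.length_cons, List.length_nil] at this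
          constructor
          · exact List.length_eq_zero_iff.1 (by omega)
          · exact List.length_eq_zero_iff.1 (by omega)
        obtain ⟨rfl, rfl⟩ := h1
        left
        have := Good.idle (R := R) (ax := ax) (f := f) false ax ReflTransGen.refl
        simpa using this
      | begin c X =>
        exfalso
        have : (Symbol.nonterminal (NT.s c X) : Sy A' N T) ∈ [Symbol.nonterminal NT.start] := by
          rw [he]; simp
        simp at this
      | proceed c X Y S y W h hW =>
        exfalso
        have : (Symbol.nonterminal (NT.act c X S) : Sy A' N T) ∈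
            [Symbol.nonterminal NT.start] := by
          rw [he]; simp
        simp at this
      | finish c X S y W h hW =>
        exfalso
        have : (Symbol.nonterminal (NT.act c X S) : Sy A' N T) ∈
            [Symbol.nonterminal NT.start] := by
          rw [he]; simp
        simp at this
      | term c t =>
        exfalso
        have : (Symbol.nonterminal (NT.s c (Sum.inr (f t))) : Sy A' N T) ∈
            [Symbol.nonterminal NT.start] := by
          rw [he]; simp
        simp at this
      | out t =>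
        exfalso
        have : (Symbol.nonterminal (NT.fin t) : Sy A' N T) ∈ [Symbol.nonterminal NT.start] := by
          rw [he]; simp
        simp at this
    | idle c u0 h0 => exact idle_step R ax f hf h0 hr he hF
    | mid c u1 v1 u2 X S h0 hS hv => exact mid_step R ax f h0 hS hv hr he hF
    | fins w _ h0 hw hne => exact Or.inl (fins_step R ax f hf h0 hw hne hr he hF)
    | outs w _ h0 hw => exact Or.inl (outs_step R ax f h0 hw hr he)
  · exact Or.inr (dead_step R ax f hd hr he hF)

theorem sound (hf : Function.Injective f) {w : List T}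
    (h : GGen (rules R ax f) NT.start w) :
    ReflTransGen (HStep R) ax (w.map (Sum.inr ∘ f)) := by
  have key : ∀ α, ReflTransGen (GStep (rules R ax f)) [Symbol.nonterminal NT.start] α →
      Good R ax f α ∨ Dead α := by
    intro α hα
    induction hα with
    | refl => exact Or.inl Good.start
    | tail _ hs ih => exact inv_step R ax f hf ih hs
  have hnt : ∀ z : NT A' N T, Symbol.nonterminal z ∉ w.map (Symbol.terminal : T → Sy A' N T) := by
    intro z hz
    obtain ⟨t, -, ht⟩ := List.mem_map.1 hz
    simp at ht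
  rcases key _ h with hg | hd
  · generalize hα : w.map (Symbol.terminal : T → Sy A' N T) = α at hg
    cases hg with
    | start => exact absurd (by rw [hα]; simp) (hnt NT.start)
    | idle c u0 h0 =>
      cases u0 with
      | nil =>
        cases w with
        | nil => exact h0
        | cons t w => simp [enc] at hα
      | cons X u0 => exact absurd (by rw [hα]; simp [enc]) (hnt (NT.s c X))
    | mid c u1 v1 u2 X S h0 hS hv => exact absurd (by rw [hα]; simp) (hnt (NT.act c X S))
    | fins w' _ h0 hw hne =>
      obtain ⟨t, ht⟩ := hne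
      exact absurd (by rw [hα]; exact ht) (hnt (NT.fin t))
    | outs w' _ h0 hw =>
      have : w' = w := by
        subst hα
        clear h0 h key hnt
        induction w generalizing w' with
        | nil => cases hw; rfl
        | cons t w ih =>
          cases hw with
          | cons h1 h2 =>
            rw [ih _ h2]
            rcases h1 with h1 | h1
            · simp at h1
            · simp only [Symbol.terminal.injEq] at h1
              rw [h1]
      rwa [this] at h0
  · obtain ⟨c, Z, X, S, a1, a2, he, -⟩ := hd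
    exact absurd (by rw [he]; simp) (hnt (NT.act c X S))

theorem gstep_of {l r : List (Sy A' N T)} {F : Finset (NT A' N T)} (hr : GR R ax f l r F)
    (u v : List (Sy A' N T)) (hF : ∀ B ∈ F, Symbol.nonterminal B ∉ u ++ l ++ v) :
    GStep (rules R ax f) (u ++ l ++ v) (u ++ r ++ v) :=
  ⟨u, v, l, r, F, hr, rfl, rfl, hF⟩

/-- the sweep -/
theorem sweep {c : Bool} (u' : List (N ⊕ A')) : ∀ (X : N ⊕ A') (L v v0 : List (N ⊕ A'))
    (S : Finset N), Desc S L → PS R L (X :: u') v →
    ReflTransGen (GStep (rules R ax f))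
      (enc (!c) v0 ++ [Symbol.nonterminal (NT.act c X S)] ++ enc c u') (enc (!c) (v0 ++ v)) := by
  induction u' with
  | nil =>
    intro X L v v0 S hS h
    obtain ⟨y, W, v', hr, hW, rfl, hv'⟩ := h
    simp only [PS] at hv'
    subst hv'
    have hW' : ∀ B ∈ W, B ∉ S := fun B hB hm => hW B hB ((hS B).1 hm)
    have := gstep_of R ax f (GR.finish c X S y W hr hW') (enc (!c) v0) (enc c []) (by
      intro B hB hm
      obtain ⟨Y, rfl⟩ := (mem_fs _ _).1 hB
      simp only [enc, List.map_nil, List.append_nil, List.mem_append, List.mem_map,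
        Symbol.nonterminal.injEq, NT.s.injEq, List.mem_singleton, reduceCtorEq, or_false] at hm
      obtain ⟨_, _, h, _⟩ := hm
      cases c <;> simp at h)
    refine ReflTransGen.single ?_
    have he : (enc (!c) (v0 ++ (y ++ [])) : List (Sy A' N T)) =
        enc (!c) v0 ++ enc (!c) y ++ enc c [] := by simp [enc]
    rw [he]
    exact this
  | cons Y u' ih =>
    intro X L v v0 S hS h
    obtain ⟨y, W, v', hr, hW, rfl, hv'⟩ := h
    have hW' : ∀ B ∈ W, B ∉ S := fun B hB hm => hW B hB ((hS B).1 hm)
    have h1 := gstep_of R ax f (GR.proceed c X Y S y W hr hW') (enc (!c) v0) (enc c u') (by simp)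
    have h2 := ih Y (L ++ [X]) v' (v0 ++ y) (ins S X) (desc_ins hS X) hv'
    have e1 : (enc (!c) v0 ++ [Symbol.nonterminal (NT.act c X S)] ++ enc c (Y :: u') :
        List (Sy A' N T)) = enc (!c) v0 ++ [Symbol.nonterminal (NT.act c X S),
          Symbol.nonterminal (NT.s c Y)] ++ enc c u' := by simp [enc]
    have e2 : (enc (!c) (v0 ++ y) ++ [Symbol.nonterminal (NT.act c Y (ins S X))] ++ enc c u' :
        List (Sy A' N T)) = enc (!c) v0 ++ (enc (!c) y ++
          [Symbol.nonterminal (NT.act c Y (ins S X))]) ++ enc c u' := by simp [enc]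
    rw [e1]
    refine (ReflTransGen.single h1).trans ?_
    rw [← e2, ← List.append_assoc]
    exact h2

theorem sim_step {u v : List (N ⊕ A')} (h : HStep R u v) (c : Bool) :
    ReflTransGen (GStep (rules R ax f)) (enc c u) (enc (!c) v) := by
  obtain ⟨hne, h⟩ := h
  cases u with
  | nil => exact absurd rfl hne
  | cons X u =>
    have h1 := gstep_of R ax f (GR.begin c X) [] (enc c u) (by
      intro B hB hm
      have hm' : (Symbol.nonterminal B : Sy A' N T) ∈ (enc c (X :: u) : List (Sy A' N T)) := by
        simpa [enc] using hm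
      obtain ⟨Y, hY, -⟩ := mem_enc hm'
      simp only [Symbol.nonterminal.injEq] at hY
      subst hY
      rcases (mem_fs _ _).1 hB with ⟨Y', h⟩ | ⟨c', Y', S, h⟩ | ⟨t, h⟩
      · simp only [NT.s.injEq] at h
        obtain ⟨h, -⟩ := h
        cases c <;> simp at h
      · simp at h
      · simp at h)
    have h2 := sweep R ax f (c := c) u X [] v [] ∅ desc_nil h
    refine (ReflTransGen.single ?_).trans h2
    simpa [enc] using h1

theorem complete {w : List T} (h : ReflTransGen (HStep R) ax (w.map (Sum.inr ∘ f))) :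
    GGen (rules R ax f) NT.start w := by
  have key : ∀ u, ReflTransGen (HStep R) ax u → ∃ c,
      ReflTransGen (GStep (rules R ax f)) [Symbol.nonterminal NT.start] (enc c u) := by
    intro u hu
    induction hu with
    | refl =>
      refine ⟨false, ReflTransGen.single ?_⟩
      have := gstep_of R ax f (GR.start) [] [] (by simp)
      simpa using this
    | tail _ hs ih =>
      obtain ⟨c, hc⟩ := ih
      exact ⟨!c, hc.trans (sim_step R ax f hs c)⟩
  obtain ⟨c, hc⟩ := key _ h
  have fin1 : ∀ (w2 w1 : List T), ReflTransGen (GStep (rules R ax f))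
      (w1.map (fun t => (Symbol.nonterminal (NT.fin t) : Sy A' N T)) ++
        enc c (w2.map (Sum.inr ∘ f)))
      ((w1 ++ w2).map (fun t => (Symbol.nonterminal (NT.fin t) : Sy A' N T))) := by
    intro w2
    induction w2 with
    | nil => intro w1; simp [enc]; exact ReflTransGen.refl
    | cons t w2 ih =>
      intro w1
      have h1 := gstep_of R ax f (GR.term c t)
        (w1.map (fun t => (Symbol.nonterminal (NT.fin t) : Sy A' N T)))
        (enc c (w2.map (Sum.inr ∘ f))) (by
        intro B hB hm
        rcases (mem_fs _ _).1 hB with ⟨c', Y, rfl, hY⟩ | ⟨c', Y, S, rfl⟩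
        · simp only [List.append_assoc, List.mem_append, List.mem_map, Symbol.nonterminal.injEq,
            reduceCtorEq, and_false, exists_false, List.mem_singleton, NT.s.injEq,
            false_or] at hm
          rcases hm with hm | hm
          · exact hY ⟨t, hm.2⟩
          · obtain ⟨X, hX, hX'⟩ := mem_enc hm
            simp only [Symbol.nonterminal.injEq, NT.s.injEq] at hX
            obtain ⟨-, rfl⟩ := hX
            obtain ⟨t', -, ht'⟩ := List.mem_map.1 hX'
            exact hY ⟨t', ht'.symm⟩
        · simp only [List.append_assoc, List.mem_append, List.mem_map, Symbol.nonterminal.injEq,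
            reduceCtorEq, and_false, exists_false, List.mem_singleton,
            false_or] at hm
          obtain ⟨X, hX, hX'⟩ := mem_enc hm
          simp at hX)
      have h2 := ih (w1 ++ [t])
      have e1 : (w1.map (fun t => (Symbol.nonterminal (NT.fin t) : Sy A' N T)) ++
          enc c ((t :: w2).map (Sum.inr ∘ f))) =
          w1.map (fun t => (Symbol.nonterminal (NT.fin t) : Sy A' N T)) ++
          [Symbol.nonterminal (NT.s c (Sum.inr (f t)))] ++ enc c (w2.map (Sum.inr ∘ f)) := by
        simp [enc]
      have e2 : ((w1 ++ [t]).map (fun t => (Symbol.nonterminal (NT.fin t) : Sy A' N T)) ++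
          enc c (w2.map (Sum.inr ∘ f))) =
          w1.map (fun t => (Symbol.nonterminal (NT.fin t) : Sy A' N T)) ++
          [Symbol.nonterminal (NT.fin t)] ++ enc c (w2.map (Sum.inr ∘ f)) := by
        simp
      rw [e1]
      refine (ReflTransGen.single h1).trans ?_
      rw [← e2]
      simpa using h2
  have fin2 : ∀ (w2 w1 : List T), ReflTransGen (GStep (rules R ax f))
      (w1.map (fun t => (Symbol.terminal t : Sy A' N T)) ++
        w2.map (fun t => (Symbol.nonterminal (NT.fin t) : Sy A' N T)))
      ((w1 ++ w2).map (fun t => (Symbol.terminal t : Sy A' N T))) := by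
    intro w2
    induction w2 with
    | nil => intro w1; simp; exact ReflTransGen.refl
    | cons t w2 ih =>
      intro w1
      have h1 := gstep_of R ax f (GR.out t)
        (w1.map (fun t => (Symbol.terminal t : Sy A' N T)))
        (w2.map (fun t => (Symbol.nonterminal (NT.fin t) : Sy A' N T))) (by
        intro B hB hm
        rcases (mem_fs _ _).1 hB with ⟨c', Y, rfl⟩ | ⟨c', Y, S, rfl⟩
        · simp at hm
        · simp at hm)
      have h2 := ih (w1 ++ [t])
      have e1 : (w1.map (fun t => (Symbol.terminal t : Sy A' N T)) ++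
          (t :: w2).map (fun t => (Symbol.nonterminal (NT.fin t) : Sy A' N T))) =
          w1.map (fun t => (Symbol.terminal t : Sy A' N T)) ++
          [Symbol.nonterminal (NT.fin t)] ++
          w2.map (fun t => (Symbol.nonterminal (NT.fin t) : Sy A' N T)) := by
        simp
      have e2 : ((w1 ++ [t]).map (fun t => (Symbol.terminal t : Sy A' N T)) ++
          w2.map (fun t => (Symbol.nonterminal (NT.fin t) : Sy A' N T))) =
          w1.map (fun t => (Symbol.terminal t : Sy A' N T)) ++
          [Symbol.terminal t] ++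
          w2.map (fun t => (Symbol.nonterminal (NT.fin t) : Sy A' N T)) := by
        simp
      rw [e1]
      refine (ReflTransGen.single h1).trans ?_
      rw [← e2]
      simpa using h2
  have h3 := fin1 w []
  have h4 := fin2 w []
  simp only [List.map_nil, List.nil_append] at h3 h4
  exact (hc.trans h3).trans h4

theorem ggen_iff (hf : Function.Injective f) (w : List T) :
    GGen (rules R ax f) NT.start w ↔ ReflTransGen (HStep R) ax (w.map (Sum.inr ∘ f)) :=
  ⟨sound R ax f hf, complete R ax f⟩

end
end

/-- every language of a propagating left forbidding E0L grammar is generated by a noncontracting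
grammar with forbidding sets -/
theorem main {A' T : Type} [Finite A'] [Finite T] (H : LFE0L A') (hH : H.Propagating)
    (f : T → A') (hf : Function.Injective f) :
    ∃ (N' : Type) (_ : Finite N') (S' : N') (P' : Set (GRule T N')), P'.Finite ∧
      (∀ ρ ∈ P', ρ.1.length ≤ ρ.2.1.length) ∧
      ∀ w : List T, GGen P' S' w ↔ w.map f ∈ H.Lang := by
  have := H.finN
  refine ⟨NT A' H.N T, inferInstance, NT.start,
    rules (fun X y W => (X, y, W) ∈ H.rules) H.ax f, ?_, ?_, ?_⟩
  · exact gr_finite _ _ _ (H.rules.finite_toSet)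
  · exact noncontracting _ _ _ H.ax_ne (fun X y W h => hH _ h)
  · intro w
    rw [ggen_iff _ _ _ hf]
    have : HStep (fun X y W => (X, y, W) ∈ H.rules) = H.Step := by
      funext u v
      exact propext (step_iff H u v).symm
    rw [this]
    unfold LFE0L.Lang
    simp [List.map_map]

end Pool.Agent.Q231.LFE.Conv
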