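import Mathlib
import Pool.Agent.Q231.LFE.PS
import Pool.Agent.W937.FG.Defs

/-!
Every language of a forbidding grammar is generated by a left forbidding E0L grammar: a
controller at the right end of the sentential form checks the forbidding set of the rule whose
mark is present; a second mark cannot be rewritten.
-/

set_option autoImplicit false

namespace Pool.Agent.Q231.LFE.Sim
open Q231.LS Pool.Agent.W937.FG Relation

section
variable {T N : Type} (P : Set (Rule T N)) (S : N)

/-- nonterminals of the simulating grammar -/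
inductive NT (P : Set (Rule T N)) : Type
  | nt (X : N)
  | mk (ρ : P)
  | ctl

instance [Finite N] [Finite P] : Finite (NT P) := by
  have : Function.Surjective (fun z : N ⊕ P ⊕ Unit => match z with
      | Sum.inl X => NT.nt X
      | Sum.inr (Sum.inl ρ) => NT.mk ρ
      | Sum.inr (Sum.inr _) => (NT.ctl : NT P)) := by
    intro z
    cases z with
    | nt X => exact ⟨Sum.inl X, rfl⟩
    | mk ρ => exact ⟨Sum.inr (Sum.inl ρ), rfl⟩
    | ctl => exact ⟨Sum.inr (Sum.inr ()), rfl⟩
  exact Finite.of_surjective _ this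

/-- translation of symbols -/
def ts : Symbol T N → NT P ⊕ T
  | Symbol.nonterminal X => Sum.inl (NT.nt X)
  | Symbol.terminal t => Sum.inr t

theorem ts_inj : Function.Injective (ts P) := by
  intro a b h
  cases a <;> cases b <;> simp_all [ts]

/-- the finite set of nonterminals with a property -/
noncomputable def fs [Finite N] [Finite P] (p : NT P → Prop) : Finset (NT P) :=
  (Set.toFinite {x | p x}).toFinset

theorem mem_fs [Finite N] [Finite P] (p : NT P → Prop) (x : NT P) : x ∈ fs P p ↔ p x := by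
  simp [fs]

/-- `x` is a mark -/
def IsMk (x : NT P) : Prop := ∃ ρ, x = NT.mk ρ

/-- the rules of the simulating grammar, as a relation -/
inductive RR [Finite N] [Finite P] : (NT P ⊕ T) → List (NT P ⊕ T) → Finset (NT P) → Prop
  | nt (X : N) : RR (Sum.inl (NT.nt X)) [Sum.inl (NT.nt X)] ∅
  | tm (t : T) : RR (Sum.inr t) [Sum.inr t] ∅
  | mark (ρ : P) : RR (Sum.inl (NT.nt ρ.1.1)) [Sum.inl (NT.mk ρ)] ∅
  | app (ρ : P) : RR (Sum.inl (NT.mk ρ)) (ρ.1.2.1.map (ts P)) (fs P (IsMk P))
  | chk (ρ : P) (h : ρ.1.1 ∉ ρ.1.2.2) : RR (Sum.inl NT.ctl) [Sum.inl NT.ctl]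
      (fs P (fun x => (∃ X ∈ ρ.1.2.2, x = NT.nt X) ∨ ∃ ρ', ρ' ≠ ρ ∧ x = NT.mk ρ'))
  | idle : RR (Sum.inl NT.ctl) [Sum.inl NT.ctl] (fs P (IsMk P))
  | stop : RR (Sum.inl NT.ctl) [] (fs P (fun _ => True))

theorem rr_finite [Finite N] [Finite T] [Finite P] :
    {r : (NT P ⊕ T) × List (NT P ⊕ T) × Finset (NT P) | RR P r.1 r.2.1 r.2.2}.Finite := by
  have h : {r : (NT P ⊕ T) × List (NT P ⊕ T) × Finset (NT P) | RR P r.1 r.2.1 r.2.2} ⊆
      (((Set.range (fun X : N => ((Sum.inl (NT.nt X), [Sum.inl (NT.nt X)], ∅) :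
        (NT P ⊕ T) × List (NT P ⊕ T) × Finset (NT P))) ∪
      Set.range (fun t : T => ((Sum.inr t, [Sum.inr t], ∅) :
        (NT P ⊕ T) × List (NT P ⊕ T) × Finset (NT P)))) ∪
      (Set.range (fun ρ : P => ((Sum.inl (NT.nt ρ.1.1), [Sum.inl (NT.mk ρ)], ∅) :
        (NT P ⊕ T) × List (NT P ⊕ T) × Finset (NT P))) ∪
      Set.range (fun ρ : P => ((Sum.inl (NT.mk ρ), ρ.1.2.1.map (ts P), fs P (IsMk P)) :
        (NT P ⊕ T) × List (NT P ⊕ T) × Finset (NT P))))) ∪
      (Set.range (fun ρ : P => ((Sum.inl NT.ctl, [Sum.inl NT.ctl],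
        (fs P (fun x => (∃ X ∈ ρ.1.2.2, x = NT.nt X) ∨ ∃ ρ', ρ' ≠ ρ ∧ x = NT.mk ρ'))) :
        (NT P ⊕ T) × List (NT P ⊕ T) × Finset (NT P))) ∪
      {(Sum.inl NT.ctl, [Sum.inl NT.ctl], fs P (IsMk P)),
        (Sum.inl NT.ctl, [], fs P (fun _ => True))})) := by
    rintro ⟨X, y, W⟩ hr
    simp only [Set.mem_ofPred_eq] at hr
    cases hr with
    | nt X => exact Or.inl (Or.inl (Or.inl ⟨X, rfl⟩))
    | tm t => exact Or.inl (Or.inl (Or.inr ⟨t, rfl⟩))
    | mark ρ => exact Or.inl (Or.inr (Or.inl ⟨ρ, rfl⟩))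
    | app ρ => exact Or.inl (Or.inr (Or.inr ⟨ρ, rfl⟩))
    | chk ρ h => exact Or.inr (Or.inl ⟨ρ, rfl⟩)
    | idle => exact Or.inr (Or.inr (Or.inl rfl))
    | stop => exact Or.inr (Or.inr (Or.inr rfl))
  refine Set.Finite.subset ?_ h
  exact (((Set.finite_range _).union (Set.finite_range _)).union
    ((Set.finite_range _).union (Set.finite_range _))).union
    ((Set.finite_range _).union (Set.toFinite _))

/-- the simulating left forbidding E0L grammar -/
noncomputable def gram [Finite N] [Finite T] [Finite P] : LFE0L T where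
  N := NT P
  finN := inferInstance
  rules := (rr_finite P).toFinset
  ax := [Sum.inl (NT.nt S), Sum.inl NT.ctl]
  ax_ne := by simp

variable [Finite N] [Finite T] [Finite P]

/-- one step of the simulating grammar -/
def SStep (u v : List (NT P ⊕ T)) : Prop := u ≠ [] ∧ PS (RR P) [] u v

theorem gstep_eq : (gram P S).Step = SStep P := by
  funext u v
  apply propext
  have h := step_iff (gram P S) u v
  refine h.trans (and_congr_right fun _ => ?_)
  have hR : (fun (X : NT P ⊕ T) (y : List (NT P ⊕ T)) (W : Finset (NT P)) =>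
      (X, y, W) ∈ (rr_finite P).toFinset) = RR P := by
    funext X y W
    exact propext (rr_finite P).mem_toFinset
  change PS (fun (X : NT P ⊕ T) (y : List (NT P ⊕ T)) (W : Finset (NT P)) =>
      (X, y, W) ∈ (rr_finite P).toFinset) [] u v ↔ _
  rw [hR]

theorem lang_def (w : List T) : w ∈ (gram P S).Lang ↔
    ReflTransGen (SStep P) [Sum.inl (NT.nt S), Sum.inl NT.ctl] (w.map Sum.inr) := by
  rw [← gstep_eq P S]
  exact Iff.rfl

/-- forms over unmarked and marked symbols; `base` removes the marks -/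
def base : NT P ⊕ T → Option (Symbol T N)
  | Sum.inl (NT.nt X) => some (Symbol.nonterminal X)
  | Sum.inl (NT.mk ρ) => some (Symbol.nonterminal ρ.1.1)
  | Sum.inl NT.ctl => none
  | Sum.inr t => some (Symbol.terminal t)

/-- `MM α β`: the form `β` is `α` with some occurrences marked -/
def MM (α : List (Symbol T N)) (β : List (NT P ⊕ T)) : Prop :=
  List.Forall₂ (fun a b => base P b = some a) α β

/-- unmarked forms -/
theorem mm_ts (α : List (Symbol T N)) : MM P α (α.map (ts P)) := by
  induction α with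
  | nil => exact List.Forall₂.nil
  | cons a α ih =>
    refine List.Forall₂.cons ?_ ih
    cases a <;> rfl

/-- a context `L` has no marks -/
def NoMk (L : List (NT P ⊕ T)) : Prop := ∀ ρ : P, Sum.inl (NT.mk ρ) ∉ L

/-- rewriting an unmarked symbol -/
theorem one_unmarked {a : Symbol T N} {y : List (NT P ⊕ T)}
    {W : Finset (NT P)} (h : RR P (ts P a) y W) : ∃ b, y = [b] ∧ base P b = some a := by
  cases a with
  | terminal t =>
    simp only [ts] at h
    cases h
    exact ⟨_, rfl, rfl⟩
  | nonterminal X =>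
    simp only [ts] at h
    generalize hz : (Sum.inl (NT.nt X) : NT P ⊕ T) = z at h
    cases h with
    | nt X' =>
      simp only [Sum.inl.injEq, NT.nt.injEq] at hz
      subst hz
      exact ⟨_, rfl, rfl⟩
    | mark ρ =>
      simp only [Sum.inl.injEq, NT.nt.injEq] at hz
      subst hz
      exact ⟨_, rfl, rfl⟩
    | tm t => simp at hz
    | app ρ => simp at hz
    | chk ρ h => simp at hz
    | idle => simp at hz
    | stop => simp at hz

/-- rewriting unmarked words only adds marks -/
theorem ps_unmarked {α : List (Symbol T N)} : ∀ {L v : List (NT P ⊕ T)},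
    PS (RR P) L (α.map (ts P)) v → MM P α v := by
  induction α with
  | nil =>
    intro L v h
    simp only [List.map_nil, PS] at h
    subst h
    exact List.Forall₂.nil
  | cons a α ih =>
    intro L v h
    obtain ⟨y, W, v', hr, -, rfl, hv⟩ := h
    obtain ⟨b, rfl, hb⟩ := one_unmarked P hr
    exact List.Forall₂.cons hb (ih hv)

/-- unmarked words may stay as they are -/
theorem ps_stay (α : List (Symbol T N)) : ∀ (L : List (NT P ⊕ T)),
    PS (RR P) L (α.map (ts P)) (α.map (ts P)) := by
  induction α with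
  | nil => intro L; rfl
  | cons a α ih =>
    intro L
    refine ⟨[ts P a], ∅, α.map (ts P), ?_, by simp, rfl, ih _⟩
    cases a with
    | terminal t => exact RR.tm t
    | nonterminal X => exact RR.nt X

/-- either there are no marks, or there is a first mark -/
theorem mm_split {α : List (Symbol T N)} {β : List (NT P ⊕ T)} (h : MM P α β) :
    β = α.map (ts P) ∨ ∃ (u v : List (Symbol T N)) (ρ : P) (β' : List (NT P ⊕ T)),
      α = u ++ [Symbol.nonterminal ρ.1.1] ++ v ∧
        β = u.map (ts P) ++ [Sum.inl (NT.mk ρ)] ++ β' ∧ MM P v β' := by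
  induction h with
  | nil => exact Or.inl rfl
  | @cons a b α β hab hrest ih =>
    have hb : b = ts P a ∨ ∃ ρ : P, b = Sum.inl (NT.mk ρ) ∧ a = Symbol.nonterminal ρ.1.1 := by
      rcases b with (X | ρ | _) | t
      · simp only [base, Option.some.injEq] at hab; subst hab; exact Or.inl rfl
      · simp only [base, Option.some.injEq] at hab; exact Or.inr ⟨ρ, rfl, hab.symm⟩
      · simp [base] at hab
      · simp only [base, Option.some.injEq] at hab; subst hab; exact Or.inl rfl
    rcases hb with rfl | ⟨ρ, rfl, rfl⟩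
    · rcases ih with rfl | ⟨u, v, ρ, β', rfl, rfl, hv⟩
      · exact Or.inl rfl
      · exact Or.inr ⟨a :: u, v, ρ, β', by simp, by simp, hv⟩
    · exact Or.inr ⟨[], α, ρ, β, by simp, by simp, hrest⟩

/-- after a mark, a marked form can be rewritten only if it has no mark -/
theorem ps_after {α : List (Symbol T N)} {β : List (NT P ⊕ T)} (h : MM P α β) :
    ∀ {L v : List (NT P ⊕ T)} (ρ : P), Sum.inl (NT.mk ρ) ∈ L → PS (RR P) L β v →
      β = α.map (ts P) := by
  induction h with
  | nil => intro L v ρ _ _; rfl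
  | @cons a b α β hab hrest ih =>
    intro L v ρ hL hv
    obtain ⟨y, W, v', hr, hW, rfl, hv'⟩ := hv
    rw [List.map_cons, ih ρ (List.mem_append_left _ hL) hv']
    congr 1
    rcases b with (X | ρ' | _) | t
    · simp only [base, Option.some.injEq] at hab; subst hab; rfl
    · exfalso
      cases hr with
      | app _ => exact hW (NT.mk ρ) ((mem_fs P _ _).2 ⟨ρ, rfl⟩) hL
    · simp [base] at hab
    · simp only [base, Option.some.injEq] at hab; subst hab; rfl

/-- reachable forms -/
def Inv (x : List (NT P ⊕ T)) : Prop :=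
  (∃ (α : List (Symbol T N)) (β : List (NT P ⊕ T)), MM P α β ∧ x = β ++ [Sum.inl NT.ctl] ∧
    ReflTransGen (Step P) [Symbol.nonterminal S] α) ∨
  (∃ w : List T, x = w.map Sum.inr ∧ Gen P S w)

theorem ts_term (w : List T) : (w.map Symbol.terminal).map (ts P) = w.map Sum.inr := by
  rw [List.map_map]; rfl

theorem ps_term (w : List T) : ∀ {L v : List (NT P ⊕ T)},
    PS (RR P) L (w.map Sum.inr) v → v = w.map Sum.inr := by
  induction w with
  | nil => intro L v h; simpa [PS] using h
  | cons t w ih =>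
    intro L v h
    obtain ⟨y, W, v', hr, -, rfl, hv⟩ := h
    cases hr
    rw [ih hv]; rfl

/-- the controller -/
theorem ctl_rule {y : List (NT P ⊕ T)} {W : Finset (NT P)} (h : RR P (Sum.inl NT.ctl) y W) :
    (y = [Sum.inl NT.ctl] ∧ ((∃ ρ : P, ρ.1.1 ∉ ρ.1.2.2 ∧
      W = (fs P (fun x => (∃ X ∈ ρ.1.2.2, x = NT.nt X) ∨ ∃ ρ', ρ' ≠ ρ ∧ x = NT.mk ρ'))) ∨
      W = fs P (IsMk P))) ∨ (y = [] ∧ W = fs P (fun _ => True)) := by
  cases h with
  | chk ρ h => exact Or.inl ⟨rfl, Or.inl ⟨ρ, h, rfl⟩⟩
  | idle => exact Or.inl ⟨rfl, Or.inr rfl⟩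
  | stop => exact Or.inr ⟨rfl, rfl⟩

/-- a form without nonterminals -/
theorem mm_term {α : List (Symbol T N)} {β : List (NT P ⊕ T)} (h : MM P α β)
    (hn : ∀ X : NT P, Sum.inl X ∉ β) : ∃ w : List T, α = w.map Symbol.terminal ∧
      β = w.map Sum.inr := by
  induction h with
  | nil => exact ⟨[], rfl, rfl⟩
  | @cons a b α β hab hrest ih =>
    obtain ⟨w, rfl, rfl⟩ := ih (fun X hX => hn X (List.mem_cons_of_mem _ hX))
    rcases b with X | t
    · exact absurd (List.mem_cons_self) (hn X)
    · simp only [base, Option.some.injEq] at hab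
      subst hab
      exact ⟨t :: w, rfl, rfl⟩

theorem inv_step {x y : List (NT P ⊕ T)} (hx : Inv P S x) (h : SStep P x y) :
    Inv P S y := by
  obtain ⟨-, h⟩ := h
  rcases hx with ⟨α, β, hm, rfl, hα⟩ | ⟨w, rfl, hw⟩
  · obtain ⟨v1, v2, h1, h2, rfl⟩ := ps_append.1 h
    obtain ⟨y, W, v', hr, hW, rfl, hv'⟩ := h2
    simp only [PS] at hv'
    subst hv'
    simp only [List.nil_append] at hW
    rw [List.append_nil]
    rcases ctl_rule P hr with ⟨rfl, hc⟩ | ⟨rfl, rfl⟩
    · left
      rcases mm_split P hm with rfl | ⟨u, v, ρ, β', rfl, rfl, hv⟩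
      · exact ⟨α, v1, ps_unmarked P h1, rfl, hα⟩
      · -- there is a mark
        obtain ⟨w1, w2, g1, g2, rfl⟩ := ps_append.1 h1
        obtain ⟨z1, z2, g3, g4, rfl⟩ := ps_append.1 g1
        have hβ' := ps_after P hv ρ (by simp) g2
        subst hβ'
        obtain ⟨yy, W', v'', hr', hW', rfl, hv''⟩ := g4
        simp only [PS] at hv''
        subst hv''
        cases hr' with
        | app _ =>
          have hρ : ∃ F, F = ρ.1.2.2 ∧ ∀ B ∈ ρ.1.2.2, Symbol.nonterminal B ∉
              u ++ [Symbol.nonterminal ρ.1.1] ++ v := by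
            refine ⟨_, rfl, ?_⟩
            rcases hc with ⟨ρ', hn, rfl⟩ | rfl
            · have he : ρ = ρ' := by
                by_contra hne
                exact hW (NT.mk ρ) ((mem_fs P _ _).2 (Or.inr ⟨ρ, hne, rfl⟩)) (by simp)
              subst he
              intro B hB hmem
              have hB' := hW (NT.nt B) ((mem_fs P _ _).2 (Or.inl ⟨B, hB, rfl⟩))
              apply hB'
              have hts : ∀ l : List (Symbol T N), Symbol.nonterminal B ∈ l →
                  (Sum.inl (NT.nt B) : NT P ⊕ T) ∈ l.map (ts P) := by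
                intro l hl
                exact List.mem_map.2 ⟨_, hl, rfl⟩
              simp only [List.append_assoc, List.mem_append, List.mem_singleton,
                Symbol.nonterminal.injEq] at hmem
              rcases hmem with hm1 | hm1 | hm1
              · exact List.mem_append_left _ (List.mem_append_left _ (hts u hm1))
              · subst hm1; exact absurd hB hn
              · exact List.mem_append_right _ (hts v hm1)
            · exact absurd (by simp) (hW (NT.mk ρ) ((mem_fs P _ _).2 ⟨ρ, rfl⟩))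
          obtain ⟨F, hF, hF'⟩ := hρ
          refine ⟨u ++ ρ.1.2.1 ++ v, z1 ++ (ρ.1.2.1.map (ts P) ++ []) ++ w2, ?_, by simp, ?_⟩
          · rw [List.append_nil]
            exact List.rel_append (List.rel_append (ps_unmarked P g3) (mm_ts P _))
              (ps_unmarked P g2)
          · refine hα.tail ⟨u, v, ρ.1.1, ρ.1.2.1, ρ.1.2.2, ρ.2, rfl, rfl, hF'⟩
    · -- the controller disappears
      right
      obtain ⟨w, rfl, rfl⟩ := mm_term P hm (fun X => hW X ((mem_fs P _ _).2 trivial))
      refine ⟨w, ?_, hα⟩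
      rw [ps_term P w h1, List.append_nil]
  · right
    exact ⟨w, ps_term P w h, hw⟩

theorem sound {w : List T} (h : w ∈ (gram P S).Lang) : Gen P S w := by
  rw [lang_def] at h
  have key : ∀ x, ReflTransGen (SStep P) [Sum.inl (NT.nt S), Sum.inl NT.ctl] x → Inv P S x := by
    intro x hx
    induction hx with
    | refl =>
      left
      refine ⟨[Symbol.nonterminal S], [Sum.inl (NT.nt S)], ?_, rfl, ReflTransGen.refl⟩
      exact List.Forall₂.cons rfl List.Forall₂.nil
    | tail _ hs ih => exact inv_step P S ih hs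
  rcases key _ h with ⟨α, β, hm, hx, hα⟩ | ⟨w', hx, hw'⟩
  · exfalso
    have : (Sum.inl NT.ctl : NT P ⊕ T) ∈ w.map Sum.inr := by
      rw [hx]; simp
    simp at this
  · have : w = w' := List.map_injective_iff.2 Sum.inr_injective hx
    subst this
    exact hw'

theorem sim_step {α β : List (Symbol T N)} (h : Step P α β) :
    ReflTransGen (SStep P) (α.map (ts P) ++ [Sum.inl NT.ctl])
      (β.map (ts P) ++ [Sum.inl NT.ctl]) := by
  obtain ⟨u, v, A, x, F, hP, rfl, rfl, hF⟩ := h
  set ρ : P := ⟨(A, x, F), hP⟩ with hρ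
  have hmk : ∀ (l : List (Symbol T N)) (ρ' : P), (Sum.inl (NT.mk ρ') : NT P ⊕ T) ∉
      l.map (ts P) := by
    intro l ρ' hl
    obtain ⟨a, -, ha⟩ := List.mem_map.1 hl
    cases a <;> simp [ts] at ha
  have s1 : SStep P ((u ++ [Symbol.nonterminal A] ++ v).map (ts P) ++ [Sum.inl NT.ctl])
      ((u.map (ts P) ++ [Sum.inl (NT.mk ρ)] ++ v.map (ts P)) ++ [Sum.inl NT.ctl]) := by
    refine ⟨by simp, ?_⟩
    rw [List.map_append, List.map_append]
    refine ps_append.2 ⟨_, _, ps_append.2 ⟨_, _, ps_append.2 ⟨_, _, ps_stay P u _,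
      ?_, rfl⟩, ps_stay P v _, rfl⟩, ?_, rfl⟩
    · refine ⟨[Sum.inl (NT.mk ρ)], ∅, [], (RR.mark ρ), by simp, rfl, rfl⟩
    · refine ⟨[Sum.inl NT.ctl], _, [], RR.idle, ?_, rfl, rfl⟩
      intro B hB
      obtain ⟨ρ', rfl⟩ := (mem_fs P _ _).1 hB
      rw [List.nil_append, ← List.map_append, ← List.map_append]
      exact hmk _ _
  have s2 : SStep P ((u.map (ts P) ++ [Sum.inl (NT.mk ρ)] ++ v.map (ts P)) ++
      [Sum.inl NT.ctl]) ((u ++ x ++ v).map (ts P) ++ [Sum.inl NT.ctl]) := by
    refine ⟨by simp, ?_⟩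
    rw [List.map_append, List.map_append]
    refine ps_append.2 ⟨_, _, ps_append.2 ⟨_, _, ps_append.2 ⟨_, _, ps_stay P u _,
      ?_, rfl⟩, ps_stay P v _, rfl⟩, ?_, rfl⟩
    · refine ⟨x.map (ts P), _, [], (RR.app ρ), ?_, by simp, rfl⟩
      intro B hB
      obtain ⟨ρ', rfl⟩ := (mem_fs P _ _).1 hB
      rw [List.nil_append]
      exact hmk _ _
    · have hAF : ρ.1.1 ∉ ρ.1.2.2 := by
        intro hA
        exact hF A hA (by simp)
      refine ⟨[Sum.inl NT.ctl], _, [], (RR.chk ρ hAF), ?_, rfl, rfl⟩
      intro B hB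
      rw [List.nil_append]
      rcases (mem_fs P _ _).1 hB with ⟨X, hX, rfl⟩ | ⟨ρ', hne, rfl⟩
      · intro hmem
        have hX' := hF X hX
        apply hX'
        simp only [List.append_assoc, List.mem_append, List.mem_singleton, List.mem_map,
          Sum.inl.injEq, reduceCtorEq, false_or] at hmem
        rcases hmem with ⟨a, ha, hb⟩ | ⟨a, ha, hb⟩
        · cases a with
          | terminal t => simp [ts] at hb
          | nonterminal Y =>
            simp only [ts, Sum.inl.injEq, NT.nt.injEq] at hb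
            subst hb
            simp [ha]
        · cases a with
          | terminal t => simp [ts] at hb
          | nonterminal Y =>
            simp only [ts, Sum.inl.injEq, NT.nt.injEq] at hb
            subst hb
            simp [ha]
      · intro hmem
        simp only [List.append_assoc, List.mem_append, List.mem_singleton,
          Sum.inl.injEq, NT.mk.injEq] at hmem
        rcases hmem with h1 | h1 | h1
        · exact hmk _ _ h1
        · exact hne h1
        · exact hmk _ _ h1
  exact (ReflTransGen.single s1).tail s2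

theorem complete {w : List T} (h : Gen P S w) : w ∈ (gram P S).Lang := by
  have key : ∀ α, ReflTransGen (Step P) [Symbol.nonterminal S] α →
      ReflTransGen (SStep P) [Sum.inl (NT.nt S), Sum.inl NT.ctl] (α.map (ts P) ++ [Sum.inl NT.ctl]) := by
    intro α hα
    induction hα with
    | refl => exact ReflTransGen.refl
    | tail _ hs ih => exact ih.trans (sim_step P hs)
  rw [lang_def]
  have h1 := key _ h
  refine h1.tail ?_
  refine ⟨by simp, ?_⟩
  rw [← ts_term P w]
  refine ps_append.2 ⟨_, [], ps_stay P _ _, ?_, by simp⟩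
  refine ⟨[], _, [], RR.stop, ?_, rfl, rfl⟩
  intro B _
  rw [List.nil_append, ts_term]
  simp

theorem lang_eq : (gram P S).Lang = {w | Gen P S w} :=
  Set.ext fun _ => ⟨sound P S, complete P S⟩

end

end Pool.Agent.Q231.LFE.Sim
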